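import Mathlib
import Pool.Agent.H114R2.Design
import Pool.Agent.U291.Had.Fam

/-!
# Symmetric designs with Hadamard and Menon parameters from prime powers in residue classes

There is a constant `C` such that the following holds for all `m ≥ 2`, all `n`, all
`t ≥ 2 ^ C ^ (n + 1)` and all prime powers `q` with `q + 2 ^ m ≤ 2 ↑↑ n` (the power tower of `n` twos).
Let `w = q` if `q + 1 = 2 ^ m + 2 ^ t * k` with `k > 0`, or `w = q + 2 ^ m` if `2 ^ t` divides
`q + 2 ^ m + 1`. Then there are a symmetric `(4 u - 1, 2 u - 1, u - 1)`-design for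
`u = 4 ^ (m - 1) * w` and a symmetric `(4 u², 2 u² - u, u² - u)`-design for `u = 2 * 4 ^ (m - 1) * w`.

The designs come from the Hadamard matrices of order `4 ^ m * w` of
`MP_d8b1b3_co/PrimePowerTimesFourPow` and `MP_d8b1b3_co/PrimePowerPlusPowTwo`, which are constructed in
`Pool.Agent.U291.Had`.
-/

set_option autoImplicit false

namespace Pool.Agent.Results.MP_3038d1_co.FourPowFamilies

/-- `B` lists the `v` blocks of a symmetric `(v, k, l)`-design on the point set `Fin v`: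
`k < v`, `0 < l`, every block has `k` points, every point is in `k` blocks, any two distinct points
are in exactly `l` common blocks (and any two distinct blocks have exactly `l` common points). -/
def IsSymmetricDesign (v k l : ℕ) (B : Fin v → Finset (Fin v)) : Prop :=
  k < v ∧ 0 < l ∧ (∀ i, (B i).card = k) ∧
  (∀ x, (Finset.univ.filter (fun i => x ∈ B i)).card = k) ∧
  (∀ x y, x ≠ y → (Finset.univ.filter (fun i => x ∈ B i ∧ y ∈ B i)).card = l) ∧
  (∀ i j, i ≠ j → (B i ∩ B j).card = l)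

theorem result : ∃ C : ℕ, ∀ m n q t w : ℕ, 2 ≤ m → IsPrimePow q →
    q + 2 ^ m ≤ (fun x : ℕ => 2 ^ x)^[n] 1 → 2 ^ C ^ (n + 1) ≤ t →
    ((w = q ∧ ∃ k : ℕ, 0 < k ∧ q + 1 = 2 ^ m + 2 ^ t * k) ∨
      (w = q + 2 ^ m ∧ 2 ^ t ∣ q + 2 ^ m + 1)) →
    (∃ B, IsSymmetricDesign (4 * (4 ^ (m - 1) * w) - 1) (2 * (4 ^ (m - 1) * w) - 1)
      (4 ^ (m - 1) * w - 1) B) ∧
    ∃ B, IsSymmetricDesign (4 * (2 * (4 ^ (m - 1) * w)) ^ 2)
      (2 * (2 * (4 ^ (m - 1) * w)) ^ 2 - 2 * (4 ^ (m - 1) * w))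
      ((2 * (4 ^ (m - 1) * w)) ^ 2 - 2 * (4 ^ (m - 1) * w)) B := by
  obtain ⟨C₁, h₁⟩ := Pool.Agent.U291.Had.fam_one
  obtain ⟨C₂, h₂⟩ := Pool.Agent.U291.Had.fam_two
  refine ⟨C₁ + C₂, fun m n q t w hm hq hqn ht hw => ?_⟩
  have hC1 : 2 ^ C₁ ^ (n + 1) ≤ t :=
    (Nat.pow_le_pow_right (by norm_num) (Nat.pow_le_pow_left (by omega) _)).trans ht
  have hC2 : 2 ^ C₂ ^ (n + 1) ≤ t :=
    (Nat.pow_le_pow_right (by norm_num) (Nat.pow_le_pow_left (by omega) _)).trans ht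
  have hq2 := hq.two_le
  have e : 4 ^ m * w = 4 * (4 ^ (m - 1) * w) := by
    conv_lhs => rw [show m = (m - 1) + 1 by omega, pow_succ]
    ring
  have key : Pool.Agent.H114R2.HasHad (4 * (4 ^ (m - 1) * w)) := by
    rw [← e]
    rcases hw with ⟨rfl, k, hk, hqk⟩ | ⟨rfl, hd⟩
    · exact h₁ m n w t k hm hq (le_trans (Nat.le_add_right _ _) hqn) hC1 hk hqk
    · exact h₂ m n q t hm hq hqn hC2 hd
  have hw2 : 2 ≤ w := by
    rcases hw with ⟨rfl, -⟩ | ⟨rfl, -⟩
    · exact hq2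
    · exact hq2.trans (Nat.le_add_right _ _)
  have hu : 1 < 4 ^ (m - 1) * w := by
    have h3 : 1 ≤ 4 ^ (m - 1) := Nat.one_le_pow _ _ (by norm_num)
    calc 1 < 1 * w := by omega
      _ ≤ 4 ^ (m - 1) * w := Nat.mul_le_mul_right w h3
  refine ⟨Pool.Agent.H114R2.hadDesign_of_had hu key,
    Pool.Agent.H114R2.menon_of_had (by omega) ?_⟩
  have e2 : 2 * (2 * (4 ^ (m - 1) * w)) = 4 * (4 ^ (m - 1) * w) := by ring
  rw [e2]
  exact key

end Pool.Agent.Results.MP_3038d1_co.FourPowFamilies
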