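import Pool.Agent.U646.HC.H

set_option autoImplicit false

/-!
# Symmetric designs with small index: few admissible parameters are realised
-/

namespace Pool.Agent.Results.MP_3038d1_co.SmallIndexTriples

open Finset Filter Topology
open scoped Classical

/-- There is a symmetric `(v, k, lam)`-design with `2 ≤ k < v` for some `v`: `v` blocks of size `k`
on `v` points, every pair of distinct points in exactly `lam` blocks. -/
def Realised (lam k : ℕ) : Prop := ∃ (v : ℕ) (B : Fin v → Finset (Fin v)),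
  2 ≤ k ∧ k < v ∧ (∀ i, (B i).card = k) ∧
  (∀ x y : Fin v, x ≠ y →
    (Finset.univ.filter (fun i => x ∈ B i ∧ y ∈ B i)).card = lam)

/-- The same with `lam` not a perfect square or `v` not congruent to `1` modulo `4`. -/
def Realised' (lam k : ℕ) : Prop := ∃ (v : ℕ) (B : Fin v → Finset (Fin v)),
  2 ≤ k ∧ k < v ∧ (∀ i, (B i).card = k) ∧
  (∀ x y : Fin v, x ≠ y →
    (Finset.univ.filter (fun i => x ∈ B i ∧ y ∈ B i)).card = lam) ∧
  (¬ IsSquare lam ∨ v % 4 ≠ 1)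

/-- The admissible pairs `(k, lam)` with `a < k ≤ a + N` and `1 ≤ lam ≤ Λ`: `lam < k` and
`v = 1 + k (k - 1) / lam` is an integer. -/
noncomputable def admissible (a N Λ : ℕ) : Finset (ℕ × ℕ) :=
  ((Ioc a (a + N)) ×ˢ (Icc 1 Λ)).filter (fun q => q.2 < q.1 ∧ q.2 ∣ q.1 * (q.1 - 1))

/-- The pairs `(k, lam)` with `a < k ≤ a + N` and `1 ≤ lam ≤ Λ` for which there is a symmetric
`(v, k, lam)`-design. -/
noncomputable def realised (a N Λ : ℕ) : Finset (ℕ × ℕ) :=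
  ((Ioc a (a + N)) ×ˢ (Icc 1 Λ)).filter (fun q => Realised q.2 q.1)

/-- (1) For `0 < η < 1` and `δ > 0` there is `M` such that, for all `Λ ≥ M` with
`log Λ ≤ (log N) ^ (1 - η)` and all `a`, at most the proportion `δ` of the admissible pairs
`(k, lam)` with `a < k ≤ a + N` and `lam ≤ Λ` is realised by symmetric designs.
(2) An explicit form, for all `Λ ≤ √N`.
(3) In every interval of length `N` at most `C N (1 + log Λ) ^ (5/2) (log N) ^ (ε - 1/2)` integers are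
block sizes of symmetric designs of index at most `Λ` (`lam` nonsquare or `v ≢ 1 mod 4`).
(4) For `δ < 1/5` almost all `k` are not block sizes of such designs with index at most
`exp ((log k) ^ δ)`. -/
theorem result :
    (∀ η δ : ℝ, 0 < η → η < 1 → 0 < δ → ∃ M : ℕ, ∀ N Λ : ℕ, M ≤ Λ →
      Real.log Λ ≤ (Real.log N) ^ (1 - η) → ∀ a : ℕ,
      ((realised a N Λ).card : ℝ) ≤ δ * ((admissible a N Λ).card : ℝ)) ∧
    (∀ ε : ℝ, 0 < ε → ∃ C : ℝ, 0 < C ∧ ∀ N : ℕ, 3 ≤ N → ∀ Λ : ℕ, 1 ≤ Λ → Λ * Λ ≤ N → ∀ a : ℕ,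
      ((realised a N Λ).card : ℝ) ≤
        C * ((1 + Real.log Λ) ^ (1 / 2 : ℝ) * (Real.log N) ^ (ε - 1 / 2) +
          1 / (1 + Real.log Λ) ^ 2) * ((admissible a N Λ).card : ℝ)) ∧
    (∀ ε : ℝ, 0 < ε → ∃ C : ℝ, 0 < C ∧ ∀ N : ℕ, 3 ≤ N → ∀ Λ : ℕ, 1 ≤ Λ → ∀ a : ℕ,
      (((Ioc a (a + N)).filter
        (fun n : ℕ => ∃ lam : ℕ, 1 ≤ lam ∧ lam ≤ Λ ∧ Realised' lam n)).card : ℝ) ≤
      C * N * (1 + Real.log Λ) ^ (5 / 2 : ℝ) * (Real.log N) ^ (ε - 1 / 2)) ∧
    (∀ δ : ℝ, 0 < δ → δ < 1 / 5 →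
      Tendsto (fun X : ℕ => (((range X).filter (fun k : ℕ => ∃ lam : ℕ, 1 ≤ lam ∧
        (lam : ℝ) ≤ Real.exp ((Real.log k) ^ δ) ∧ Realised' lam k)).card : ℝ) / X)
        atTop (𝓝 0)) := by
  refine ⟨?_, ?_, ?_, ?_⟩
  · intro η δ h0 h1 hδ
    exact Pool.Agent.U646.HC.few η δ h0 h1 hδ
  · intro ε hε
    exact Pool.Agent.U646.HC.proportion ε hε
  · intro ε hε
    exact Pool.Agent.U646.HC.small ε hε
  · intro δ h0 h1
    exact Pool.Agent.U646.HC.density δ h0 h1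

end Pool.Agent.Results.MP_3038d1_co.SmallIndexTriples
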