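import Pool.Agent.U646.HC.O4
import Pool.Agent.U646.HC.Q4

set_option autoImplicit false

/-!
# Almost all admissible parameter triples are not realised: average and typical orders
-/

namespace Pool.Agent.Results.MP_3038d1_co.TriplesByOrder

open Finset Filter Topology
open scoped Classical

/-- The admissible triples `(v, k, lam)` of order `k - lam` between `2` and `N`: `0 < lam < k < v` and
`lam (v - 1) = k (k - 1)`. (Order `1` means `v = k + 1`, the trivial designs.) -/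
def Admissible (N : ℕ) : Set (ℕ × ℕ × ℕ) :=
  {q | 0 < q.2.2 ∧ q.2.2 < q.2.1 ∧ q.2.1 < q.1 ∧ q.2.2 * (q.1 - 1) = q.2.1 * (q.2.1 - 1) ∧
    2 ≤ q.2.1 - q.2.2 ∧ q.2.1 - q.2.2 ≤ N}

/-- The realised ones: there is a symmetric `(v, k, lam)`-design, that is, a family of `v` blocks of
size `k` on `v` points such that every pair of distinct points lies in exactly `lam` blocks. -/
def Realised (N : ℕ) : Set (ℕ × ℕ × ℕ) :=
  {q | q ∈ Admissible N ∧ ∃ B : Fin q.1 → Finset (Fin q.1), (∀ i, (B i).card = q.2.1) ∧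
    ∀ x y : Fin q.1, x ≠ y → (Finset.univ.filter (fun i => x ∈ B i ∧ y ∈ B i)).card = q.2.2}

theorem dvd_of_adm {v k l n : ℕ} (hl : 0 < l) (hn : 2 ≤ n) (hk : k = n + l)
    (h : l * (v - 1) = k * (k - 1)) : l ∣ n * (n - 1) := by
  obtain ⟨n', rfl⟩ : ∃ n', n = n' + 1 := ⟨n - 1, by omega⟩
  subst hk
  have e1 : n' + 1 + l - 1 = n' + l := by omega
  have e2 : n' + 1 - 1 = n' := by omega
  rw [e1] at h
  rw [e2]
  have h1 : l ∣ (n' + 1 + l) * (n' + l) := ⟨v - 1, h.symm⟩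
  have h2 : (n' + 1 + l) * (n' + l) = (n' + 1) * n' + l * (2 * n' + 1 + l) := by ring
  rw [h2] at h1
  exact (Nat.dvd_add_left (dvd_mul_right l _)).1 h1

theorem adm_mem {N : ℕ} {q : ℕ × ℕ × ℕ} (hq : q ∈ Admissible N) :
    (q.2.1 - q.2.2, q.2.2) ∈ Pool.Agent.U646.HC.AdmO N := by
  obtain ⟨v, k, l⟩ := q
  obtain ⟨h1, h2, h3, h4, h5, h6⟩ := hq
  simp only at h1 h2 h3 h4 h5 h6 ⊢
  have h7 := dvd_of_adm h1 h5 (by omega : k = (k - l) + l) h4
  unfold Pool.Agent.U646.HC.AdmO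
  rw [mem_filter, mem_product, mem_Icc, mem_Icc]
  refine ⟨⟨⟨h5, h6⟩, h1, ?_⟩, h7⟩
  have h8 : 0 < (k - l) * (k - l - 1) := Nat.mul_pos (by omega) (by omega)
  calc l ≤ (k - l) * (k - l - 1) := Nat.le_of_dvd h8 h7
    _ ≤ N * N := Nat.mul_le_mul h6 (by omega)

theorem adm_inj (N : ℕ) :
    Set.InjOn (fun q : ℕ × ℕ × ℕ => (q.2.1 - q.2.2, q.2.2)) (Admissible N) := by
  rintro ⟨v, k, l⟩ h ⟨v', k', l'⟩ h' heq
  obtain ⟨h1, h2, h3, h4, h5, h6⟩ := h
  obtain ⟨h1', h2', h3', h4', h5', h6'⟩ := h'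
  simp only [Prod.mk.injEq] at h1 h2 h3 h4 h5 h6 h1' h2' h3' h4' h5' h6' heq
  obtain ⟨e1, e2⟩ := heq
  subst e2
  have e3 : k = k' := by omega
  subst e3
  have e4 : v - 1 = v' - 1 := by
    apply Nat.eq_of_mul_eq_mul_left h1
    rw [h4, h4']
  have e5 : v = v' := by omega
  subst e5
  rfl

theorem adm_finite (N : ℕ) : (Admissible N).Finite :=
  Set.Finite.of_injOn (f := fun q : ℕ × ℕ × ℕ => (q.2.1 - q.2.2, q.2.2))
    (t := (Pool.Agent.U646.HC.AdmO N : Set (ℕ × ℕ)))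
    (fun _ hq => adm_mem hq) (adm_inj N) (Finset.finite_toSet _)

theorem adm_card (N : ℕ) : (Pool.Agent.U646.HC.AdmO N).card ≤ (Admissible N).ncard := by
  rw [← Set.ncard_coe_finset]
  apply Set.ncard_le_ncard_of_injOn
    (fun q : ℕ × ℕ => (2 * q.1 + q.2 + q.1 * (q.1 - 1) / q.2, q.1 + q.2, q.2)) _ _ (adm_finite N)
  · rintro ⟨n, l⟩ hq
    rw [mem_coe] at hq
    unfold Pool.Agent.U646.HC.AdmO at hq
    rw [mem_filter, mem_product, mem_Icc, mem_Icc] at hq
    obtain ⟨⟨⟨h1, h2⟩, h3, -⟩, l', h4⟩ := hq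
    simp only at h1 h2 h3 h4
    have e : n * (n - 1) / l = l' := by
      rw [h4]
      exact Nat.mul_div_cancel_left l' (by omega)
    show 0 < l ∧ l < n + l ∧ n + l < 2 * n + l + n * (n - 1) / l ∧
      l * (2 * n + l + n * (n - 1) / l - 1) = (n + l) * (n + l - 1) ∧
      2 ≤ n + l - l ∧ n + l - l ≤ N
    rw [e]
    refine ⟨by omega, by omega, by omega, ?_, by omega, by omega⟩
    obtain ⟨n', rfl⟩ : ∃ n', n = n' + 1 := ⟨n - 1, by omega⟩
    have e1 : 2 * (n' + 1) + l + l' - 1 = 2 * n' + 1 + l + l' := by omega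
    have e2 : n' + 1 + l - 1 = n' + l := by omega
    have e3 : n' + 1 - 1 = n' := by omega
    rw [e3] at h4
    rw [e1, e2]
    nlinarith
  · rintro ⟨n, l⟩ _ ⟨n', l'⟩ _ heq
    simp only [Prod.mk.injEq] at heq
    obtain ⟨-, h2, h3⟩ := heq
    subst h3
    have : n = n' := by omega
    subst this
    rfl

theorem real_card (N : ℕ) : (Realised N).ncard ≤ (Pool.Agent.U646.HC.DesO N).card := by
  rw [← Set.ncard_coe_finset]
  apply Set.ncard_le_ncard_of_injOn (fun q : ℕ × ℕ × ℕ => (q.2.1 - q.2.2, q.2.2)) _ _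
    (Finset.finite_toSet _)
  · rintro ⟨v, k, l⟩ hq
    have h1 := adm_mem hq.1
    unfold Pool.Agent.U646.HC.AdmO at h1
    rw [mem_filter] at h1
    rw [mem_coe]
    unfold Pool.Agent.U646.HC.DesO
    rw [mem_filter]
    refine ⟨h1.1, ?_⟩
    obtain ⟨⟨h2, h3, h4, -⟩, B, hB1, hB2⟩ := hq
    simp only at h2 h3 h4 hB1 hB2 ⊢
    have e : k - l + l = k := by omega
    exact ⟨v, B, by rw [e]; exact h4, fun i => by rw [e]; exact hB1 i, fun x y hxy => by
      convert hB2 x y hxy⟩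
  · exact (adm_inj N).mono fun q hq => hq.1

/-- The admissible triples of order `n`. -/
def AdmissibleAt (n : ℕ) : Set (ℕ × ℕ × ℕ) := {q | q ∈ Admissible n ∧ q.2.1 - q.2.2 = n}

/-- The realised triples of order `n`. -/
def RealisedAt (n : ℕ) : Set (ℕ × ℕ × ℕ) := {q | q ∈ Realised n ∧ q.2.1 - q.2.2 = n}

theorem admAt_card {n : ℕ} (hn : 2 ≤ n) :
    (n * (n - 1)).divisors.card ≤ (AdmissibleAt n).ncard := by
  rw [← Set.ncard_coe_finset]
  apply Set.ncard_le_ncard_of_injOn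
    (fun l : ℕ => (2 * n + l + n * (n - 1) / l, n + l, l)) _ _
    ((adm_finite n).subset fun q hq => hq.1)
  · intro l hq
    rw [mem_coe, Nat.mem_divisors] at hq
    obtain ⟨⟨l', h4⟩, h5⟩ := hq
    have h3 : 0 < l := by
      rcases Nat.eq_zero_or_pos l with h | h
      · rw [h, zero_mul] at h4
        omega
      · exact h
    have e : n * (n - 1) / l = l' := by
      rw [h4]
      exact Nat.mul_div_cancel_left l' h3
    show (0 < l ∧ l < n + l ∧ n + l < 2 * n + l + n * (n - 1) / l ∧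
      l * (2 * n + l + n * (n - 1) / l - 1) = (n + l) * (n + l - 1) ∧
      2 ≤ n + l - l ∧ n + l - l ≤ n) ∧ n + l - l = n
    rw [e]
    refine ⟨⟨by omega, by omega, by omega, ?_, by omega, by omega⟩, by omega⟩
    obtain ⟨n', rfl⟩ : ∃ n', n = n' + 1 := ⟨n - 1, by omega⟩
    have e1 : 2 * (n' + 1) + l + l' - 1 = 2 * n' + 1 + l + l' := by omega
    have e2 : n' + 1 + l - 1 = n' + l := by omega
    have e3 : n' + 1 - 1 = n' := by omega
    rw [e3] at h4
    rw [e1, e2]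
    nlinarith
  · intro l _ l' _ heq
    simp only [Prod.mk.injEq] at heq
    exact heq.2.2

theorem realAt_card (n : ℕ) : ∃ R : Finset ℕ, (∀ l ∈ R, 1 ≤ l ∧ Pool.Agent.U646.HC.IsO n l) ∧
    (RealisedAt n).ncard ≤ R.card := by
  refine ⟨(Icc 1 (n * n)).filter (fun l => Pool.Agent.U646.HC.IsO n l), ?_, ?_⟩
  · intro l hl
    rw [mem_filter, mem_Icc] at hl
    exact ⟨hl.1.1, hl.2⟩
  · rw [← Set.ncard_coe_finset]
    apply Set.ncard_le_ncard_of_injOn (fun q : ℕ × ℕ × ℕ => q.2.2) _ _ (Finset.finite_toSet _)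
    · rintro ⟨v, k, l⟩ hq
      obtain ⟨hq, hkn⟩ := hq
      have h1 := adm_mem hq.1
      unfold Pool.Agent.U646.HC.AdmO at h1
      rw [mem_filter, mem_product, mem_Icc, mem_Icc] at h1
      rw [mem_coe, mem_filter, mem_Icc]
      refine ⟨h1.1.2, ?_⟩
      obtain ⟨⟨h2, h3, h4, -⟩, B, hB1, hB2⟩ := hq
      simp only at h2 h3 h4 hB1 hB2 hkn ⊢
      have e : n + l = k := by omega
      exact ⟨v, B, by rw [e]; exact h4, fun i => by rw [e]; exact hB1 i, fun x y hxy => by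
        convert hB2 x y hxy⟩
    · intro q hq q' hq' heq
      apply adm_inj n hq.1.1 hq'.1.1
      have h1 := hq.2
      have h2 := hq'.2
      have h3 : q.2.2 = q'.2.2 := heq
      show (q.2.1 - q.2.2, q.2.2) = (q'.2.1 - q'.2.2, q'.2.2)
      rw [h1, h2, h3]

/-- (1) Of the admissible parameter triples of order at most `N` (they are finitely many) at most
`C N (log N) ^ (5/3) (1 + log log N)` are parameters of symmetric designs; the proportion is
`O ((log N) ^ (-1/3) (1 + log log N))`.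
(2) For almost all orders `n`, almost all admissible triples of order `n` are not realised: for
`0 < ε ≤ 1` there are at most `(C / ε) N (log log N) ^ (-1/4)` integers `n ≤ N` such that more than
`ε` times the number of the admissible triples of order `n` are realised. -/
theorem result :
    (∃ C : ℝ, 0 < C ∧ ∀ N : ℕ, 3 ≤ N → (Admissible N).Finite ∧
      ((Realised N).ncard : ℝ) ≤
        C * N * (Real.log N) ^ (5 / 3 : ℝ) * (1 + Real.log (Real.log N)) ∧
      ((Realised N).ncard : ℝ) ≤ C * (Real.log N) ^ (-(1 / 3) : ℝ) *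
        (1 + Real.log (Real.log N)) * ((Admissible N).ncard : ℝ)) ∧
    (∃ C : ℝ, 0 < C ∧ ∀ ε : ℝ, 0 < ε → ε ≤ 1 → ∀ N : ℕ, 16 ≤ N →
      (((Icc 2 N).filter (fun n =>
        ε * ((AdmissibleAt n).ncard : ℝ) < ((RealisedAt n).ncard : ℝ))).card : ℝ) ≤
        C / ε * N * (Real.log (Real.log N)) ^ (-(1 / 4) : ℝ)) := by
  constructor
  · obtain ⟨C, hC, H⟩ := Pool.Agent.U646.HC.order_bound
    refine ⟨C, hC, ?_⟩
    intro N hN
    obtain ⟨h1, h2⟩ := H N hN
    have h3 : ((Realised N).ncard : ℝ) ≤ ((Pool.Agent.U646.HC.DesO N).card : ℝ) := by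
      exact_mod_cast real_card N
    have h4 : ((Pool.Agent.U646.HC.AdmO N).card : ℝ) ≤ ((Admissible N).ncard : ℝ) := by
      exact_mod_cast adm_card N
    refine ⟨adm_finite N, h3.trans h1, h3.trans (h2.trans ?_)⟩
    apply mul_le_mul_of_nonneg_left h4
    obtain ⟨hL1, hLL⟩ := Pool.Agent.H951R4.OD.d3_log hN
    have := Real.rpow_nonneg (by linarith : 0 ≤ Real.log N) (-(1 / 3) : ℝ)
    have : 0 ≤ 1 + Real.log (Real.log N) := by linarith
    positivity
  · obtain ⟨C, hC, H⟩ := Pool.Agent.U646.HC.typical_rate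
    refine ⟨C, hC, ?_⟩
    intro ε hε hε1 N hN
    refine le_trans ?_ (H ε hε hε1 N hN)
    have h2 : (Icc 2 N).filter (fun n =>
        ε * ((AdmissibleAt n).ncard : ℝ) < ((RealisedAt n).ncard : ℝ)) ⊆
        (Ioc 0 N).filter (Pool.Agent.U646.HC.BadO ε) := by
      intro n hn
      rw [mem_filter, mem_Icc] at hn
      rw [mem_filter, mem_Ioc]
      obtain ⟨⟨h3, h4⟩, h5⟩ := hn
      refine ⟨⟨by omega, h4⟩, h3, ?_⟩
      obtain ⟨R, hR, hRc⟩ := realAt_card n
      refine ⟨R, hR, ?_⟩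
      have h6 : (((n * (n - 1)).divisors.card : ℕ) : ℝ) ≤ ((AdmissibleAt n).ncard : ℝ) := by
        exact_mod_cast admAt_card h3
      have h7 : ((RealisedAt n).ncard : ℝ) ≤ (R.card : ℝ) := by exact_mod_cast hRc
      have h8 := mul_le_mul_of_nonneg_left h6 hε.le
      linarith
    exact_mod_cast card_le_card h2

end Pool.Agent.Results.MP_3038d1_co.TriplesByOrder
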