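import Pool.Agent.H114R2.Design
import Pool.Agent.Y341.Had.Orders
import Pool.Agent.Y342.ION.Final
import Pool.Agent.U815.Had.N1123
import Pool.Agent.U815.Had.N1483

/-!
# New infinite families of symmetric designs from the Hadamard orders 4492 and 5932

The Hadamard matrices of the orders `4492 = 4 * 1123` and `5932 = 4 * 1483` (helper files
`U815.Had`, found by helper815) are Goethals-Seidel arrays over `Z_1123` and `Z_1483`, from four sign
functions which are constant on the orbits of a group of multipliers of order `33` and `39`.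

(1) Let `m = 1123` or `m = 1483`. For every `n` such that there is a Hadamard matrix of order `2 n`,
and in particular for `n = 1`, for `n = (p + 1) / 2` with `p = 3` modulo `4` a prime and for
`n = q + 1` with `q = 1` modulo `4` a prime power, there are a symmetric
`(4 m n - 1, 2 m n - 1, m n - 1)`-design and a symmetric design with Menon parameters
`(4 u², 2 u² - u, u² - u)`, `u = 2 m n`.

(2) If moreover `q = 4 m n + 1` is a prime power then for all `a` and `j`, with `q ^ 2 ^ a = 2 h + 1`,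
`P = 2 h + 1`, there is a symmetric design with the parameters
`(4 h² (1 + P² + P⁴ + ⋯ + P ^ (2 j)), P ^ (2 j) (2 h² + h), P ^ (2 j) (h² + h))`.

(3) The numbers `4493 = 4 * 1123 + 1` and `152729 = 4 * 1123 * 34 + 1` are primes of this kind.
-/

set_option autoImplicit false

namespace Pool.Agent.Results.MP_3038d1_co.TwoFurtherSeeds

/-- `B` lists the `v` blocks of a symmetric `(v, k, l)`-design on the point set `Fin v`:
`k < v`, `0 < l`, every block has `k` points, every point is in `k` blocks, any two distinct points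
are in exactly `l` common blocks (and any two distinct blocks have exactly `l` common points). -/
def IsSymmetricDesign (v k l : ℕ) (B : Fin v → Finset (Fin v)) : Prop :=
  k < v ∧ 0 < l ∧ (∀ i, (B i).card = k) ∧
  (∀ x, (Finset.univ.filter (fun i => x ∈ B i)).card = k) ∧
  (∀ x y, x ≠ y → (Finset.univ.filter (fun i => x ∈ B i ∧ y ∈ B i)).card = l) ∧
  (∀ i j, i ≠ j → (B i ∩ B j).card = l)

/-- `n` is `1`, or `(p + 1) / 2` for a prime `p = 3` modulo `4`, or `q + 1` for a prime power `q = 1`
modulo `4`, or half the order of any Hadamard matrix. -/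
def IsMultiplier (n : ℕ) : Prop :=
  0 < n ∧ (n = 1 ∨ (∃ p : ℕ, p.Prime ∧ p % 4 = 3 ∧ 2 * n = p + 1) ∨
    (∃ q : ℕ, IsPrimePow q ∧ q % 4 = 1 ∧ n = q + 1) ∨
    ∃ H : Matrix (Fin (2 * n)) (Fin (2 * n)) ℤ, (∀ i j, H i j = 1 ∨ H i j = -1) ∧
      H * H.transpose = ((2 * n : ℕ) : ℤ) • 1)

/-- the family of Ionin and Kharaghani over the prime power `q` -/
def FamilyOver (q : ℕ) : Prop :=
  ∀ a j h : ℕ, q ^ 2 ^ a = 2 * h + 1 →
    ∃ B, IsSymmetricDesign (4 * h ^ 2 * ∑ i ∈ Finset.range (j + 1), (2 * h + 1) ^ (2 * i))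
      ((2 * h + 1) ^ (2 * j) * (2 * h ^ 2 + h)) ((2 * h + 1) ^ (2 * j) * (h ^ 2 + h)) B

theorem seed (m : ℕ) (hm : m ∈ ([1123, 1483] : List ℕ)) :
    Pool.Agent.TH394.HadOrder (4 * m) := by
  simp only [List.mem_cons, List.not_mem_nil, or_false] at hm
  rcases hm with rfl | rfl
  · exact Pool.Agent.U815.Had.N1123.had
  · exact Pool.Agent.U815.Had.N1483.had

theorem family {q : ℕ} (hq : IsPrimePow q) (h4 : q % 4 = 1)
    (hH : Pool.Agent.TH394.HadOrder (q - 1)) : FamilyOver q := by
  intro a j h hh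
  have h1 := (Pool.Agent.Y341.Had.tower_pow hq h4 a).1
  have h2 := Pool.Agent.Y341.Had.tower hq h4 hH a
  rw [hh] at h1 h2
  exact Pool.Agent.Y342.ION.ionin h1 h2 j

/-- **New infinite families of symmetric designs.** -/
theorem result :
    (∀ m ∈ ([1123, 1483] : List ℕ), ∀ n : ℕ, IsMultiplier n →
      (∃ B, IsSymmetricDesign (4 * (m * n) - 1) (2 * (m * n) - 1) (m * n - 1) B) ∧
      (∃ B, IsSymmetricDesign (4 * (2 * (m * n)) ^ 2) (2 * (2 * (m * n)) ^ 2 - 2 * (m * n))
        ((2 * (m * n)) ^ 2 - 2 * (m * n)) B) ∧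
      (IsPrimePow (4 * (m * n) + 1) → FamilyOver (4 * (m * n) + 1))) ∧
    (IsMultiplier 1 ∧ IsMultiplier 34 ∧ (4 * (1123 * 1) + 1).Prime ∧ (4 * (1123 * 34) + 1).Prime) := by
  refine ⟨?_, ?_⟩
  · have key : ∀ m : ℕ, 1 < m → Pool.Agent.TH394.HadOrder (4 * m) →
        (∃ B, IsSymmetricDesign (4 * m - 1) (2 * m - 1) (m - 1) B) ∧
        (∃ B, IsSymmetricDesign (4 * (2 * m) ^ 2) (2 * (2 * m) ^ 2 - 2 * m)
          ((2 * m) ^ 2 - 2 * m) B) ∧
        (IsPrimePow (4 * m + 1) → FamilyOver (4 * m + 1)) := by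
      intro m hm h
      refine ⟨Pool.Agent.H114R2.hadDesign_of_had hm h,
        Pool.Agent.H114R2.menon_of_had (by omega) ?_, fun hq => ?_⟩
      · have e : 2 * (2 * m) = 4 * m := by ring
        rw [e]
        exact h
      · refine family hq (by omega) ?_
        have e : 4 * m + 1 - 1 = 4 * m := by omega
        rw [e]
        exact h
    intro m hm n hn
    obtain ⟨hn0, hn⟩ := hn
    have hm1 : 1 < m := by
      simp only [List.mem_cons, List.not_mem_nil, or_false] at hm
      omega
    have h1 : 1 < m * n := by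
      calc 1 < m := hm1
        _ ≤ m * n := Nat.le_mul_of_pos_right m hn0
    exact key (m * n) h1 (Pool.Agent.Y341.Had.mult (seed m hm) hn)
  · refine ⟨⟨by norm_num, Or.inl rfl⟩, ⟨by norm_num, Or.inr (Or.inl ⟨67, by norm_num, rfl, rfl⟩)⟩,
      by norm_num, by norm_num⟩

end Pool.Agent.Results.MP_3038d1_co.TwoFurtherSeeds
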